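import Pool.Agent.TH418.CubesEven

set_option autoImplicit false

/-!
# Sharpness of the block bound for order six
-/

namespace Pool.Agent.Run7.h791.VC

open Finset Function Pool.Agent.H430R2.PermCubes Pool.Agent.TH418.CubesEven

/-- the parity of an element of `ZMod 6` -/
def pi2 : ZMod 6 →+* ZMod 2 := ZMod.castHom (by decide) (ZMod 2)

theorem two_zero (a : ZMod 2) : a + a = 0 := by revert a; decide

/-- the parity of the sum of the family splits into blocks of variables -/
structure Split (I O J : Type) [Fintype O] [Fintype J] (F : (I → ZMod 6) → O → ZMod 6) (b : I → J)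
    (p : J → (I → ZMod 6) → ZMod 2) : Prop where
  surj : Surjective b
  dep : ∀ j x y, (∀ i, b i = j → x i = y i) → p j x = p j y
  dec : ∀ x, ∑ o, pi2 (F x o) = ∑ j, p j x

/-- the blocks of the base family -/
def b0 : Fin 8 → Fin 4 := ![0, 0, 1, 1, 2, 2, 3, 3]

/-- the functions of the blocks of the base family -/
def p0 (P R L : Fin 3 → ZMod 6 → ZMod 6 → ZMod 6) (j : Fin 4) (x : Fin 8 → ZMod 6) : ZMod 2 :=
  match j with
  | 0 => ∑ o, pi2 (P (w1 o) (x 0) (x 1))
  | 1 => ∑ o, pi2 (R (w2 o) (x 2) (x 3))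
  | 2 => ∑ o, pi2 (R (w3 o) (x 4) (x 5))
  | 3 => ∑ o, pi2 (L (w4 o) (x 6) (x 7))

theorem split_base (P R L : Fin 3 → ZMod 6 → ZMod 6 → ZMod 6) :
    Split (Fin 8) (Fin 9) (Fin 4) (baseF P R L) b0 (p0 P R L) := by
  refine ⟨?_, ?_, ?_⟩
  · intro j
    fin_cases j
    · exact ⟨0, rfl⟩
    · exact ⟨2, rfl⟩
    · exact ⟨4, rfl⟩
    · exact ⟨6, rfl⟩
  · intro j x y h
    fin_cases j
    · simp only [p0, h 0 rfl, h 1 rfl]
    · simp only [p0, h 2 rfl, h 3 rfl]
    · simp only [p0, h 4 rfl, h 5 rfl]
    · simp only [p0, h 6 rfl, h 7 rfl]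
  · intro x
    rw [Fin.sum_univ_four]
    simp only [baseF, map_add, sum_add_distrib, p0]

theorem split_step {L : Fin 3 → ZMod 6 → ZMod 6 → ZMod 6} {I O J : Type}
    [Fintype O] [DecidableEq O] [Fintype J] {F : (I → ZMod 6) → O → ZMod 6} {b : I → J}
    {p : J → (I → ZMod 6) → ZMod 2} (h : Split I O J F b p) (a a' c c' o₀ : O) :
    ∃ (b' : Option (Option I) → Option J) (p' : Option J → (Option (Option I) → ZMod 6) → ZMod 2),
      Split (Option (Option I)) (Option (Option O)) (Option J) (stepF L F a a' c c' o₀) b' p' := by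
  refine ⟨fun i => match i with
      | none => none
      | some none => none
      | some (some i) => some (b i),
    fun j x => match j with
      | none => pi2 (L 2 (x none) (x (some none))) + pi2 (L 1 (x none) (x (some none))) +
          ∑ o, pi2 (L (sym a a' c c' o) (x none) (x (some none)))
      | some j => p j (fun i => x (some (some i))), ?_, ?_, ?_⟩
  · intro j
    match j with
    | none => exact ⟨none, rfl⟩
    | some j =>
      obtain ⟨i, hi⟩ := h.surj j
      exact ⟨some (some i), by simp [hi]⟩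
  · intro j x y hxy
    match j with
    | none =>
      have h1 := hxy none rfl
      have h2 := hxy (some none) rfl
      simp only [h1, h2]
    | some j =>
      apply h.dep
      intro i hi
      exact hxy (some (some i)) (by simp [hi])
  · intro x
    rw [Fintype.sum_option, Fintype.sum_option, Fintype.sum_option]
    simp only [stepF, map_add, sum_add_distrib]
    rw [h.dec]
    have := two_zero (pi2 (F (fun i => x (some (some i))) o₀))
    linear_combination this

/-- the family exists with a splitting into blocks of two variables -/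
theorem exists_split {P R L : Fin 3 → ZMod 6 → ZMod 6 → ZMod 6} (hP : IsSpecial 2 P)
    (hR : IsSpecial 0 R) (hL : IsGadget L) (r : ℕ) :
    ∃ (I O : Type) (_ : DecidableEq I) (_ : Fintype I) (_ : Fintype O) (_ : DecidableEq O)
      (F : (I → ZMod 6) → O → ZMod 6) (s : O → ZMod 6) (a a' b b' c : O), Good I O F s ∧
      (a ≠ a' ∧ b ≠ b' ∧ b ≠ a ∧ b ≠ a' ∧ b' ≠ a ∧ b' ≠ a' ∧ c ≠ a ∧ c ≠ a' ∧ c ≠ b ∧ c ≠ b') ∧
      (s a = 1 ∧ s a' = 1 ∧ s b = 1 ∧ s b' = 1 ∧ s c = 1) ∧
      Fintype.card I = 2 * r + 8 ∧ Fintype.card O = 2 * r + 9 ∧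
      ∃ (J : Type) (_ : Fintype J) (bl : I → J) (p : J → (I → ZMod 6) → ZMod 2),
        Fintype.card J = r + 4 ∧ Split I O J F bl p := by
  induction r with
  | zero =>
    exact ⟨Fin 8, Fin 9, inferInstance, inferInstance, inferInstance, inferInstance, baseF P R L,
      fun _ => 1, 0, 1, 2, 3, 4, good_base hP hR hL, by decide, ⟨rfl, rfl, rfl, rfl, rfl⟩,
      by simp, by simp, Fin 4, inferInstance, b0, p0 P R L, by simp, split_base P R L⟩
  | succ r ih =>
    obtain ⟨I, O, _, _, _, _, F, s, a, a', b, b', c, h,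
      ⟨h1, h2, h3, h4, h5, h6, h7, h8, h9, h10⟩, ⟨s1, s2, s3, s4, s5⟩, hI, hO,
      J, _, bl, p, hJ, hsp⟩ := ih
    obtain ⟨bl', p', hsp'⟩ := split_step (L := L) hsp a a' b b' c
    refine ⟨Option (Option I), Option (Option O), inferInstance, inferInstance, inferInstance,
      inferInstance, stepF L F a a' b b' c, stepS s c, some (some a), some (some a'),
      some (some b), some (some b'), some none,
      h.step hL h1 h2 h3 h4 h5 h6 h7 h8 h9 h10 s1 s2 s3 s4 s5, ?_, ?_, ?_, ?_,
      Option J, inferInstance, bl', p', ?_, hsp'⟩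
    · simp [h1, h2, h3, h4, h5, h6]
    · simp [stepS, h7.symm, h8.symm, h9.symm, h10.symm, s1, s2, s3, s4]
    · simp only [Fintype.card_option, hI]; ring
    · simp only [Fintype.card_option, hO]; ring
    · simp only [Fintype.card_option, hJ]

/-- a good family gives a variational set, with the cubes written down -/
theorem good_variational {I O : Type} [DecidableEq I] [Fintype I]
    [Fintype O] [DecidableEq O] {F : (I → ZMod 6) → O → ZMod 6} {s : O → ZMod 6}
    (h : Good I O F s) {m : ℕ} (eI : Fin m ≃ I) (eO : Fin (m + 1) ≃ O) :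
    IsVariationalSet m 6 (m + 1)
      (fun (k : Fin (m + 1)) (x : Fin m → Fin 6) => (F (fun i => x (eI.symm i)) (eO k) : Fin 6)) := by
  refine ⟨?_, ?_⟩
  · intro k i x
    have e : ∀ t : Fin 6, (fun j => update x i t (eI.symm j)) =
        update (fun j => x (eI.symm j)) (eI i) t := by
      intro t
      funext j
      by_cases hj : j = eI i
      · subst hj; simp
      · rw [update_of_ne hj, update_of_ne]
        intro h'
        exact hj (by rw [← h']; simp)
    simp only [e]
    exact h.line _ _ _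
  · intro e he
    refine Finite.injective_iff_bijective.1 ?_
    intro x y hxy
    -- the missing output
    obtain ⟨k₀, hk₀⟩ : ∃ k₀, ∀ k, k ≠ k₀ → ∃ i, e i = k := by
      have hc : (Finset.univ.image e)ᶜ.card = 1 := by
        rw [Finset.card_compl, Finset.card_image_of_injective _ he]
        simp
      obtain ⟨k₀, hk₀⟩ := Finset.card_eq_one.1 hc
      refine ⟨k₀, fun k hk => ?_⟩
      by_contra hcon
      have : k ∈ (Finset.univ.image e)ᶜ := by
        simpa using hcon
      rw [hk₀, Finset.mem_singleton] at this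
      exact hk this
    have hXY : (fun i => x (eI.symm i) : I → ZMod 6) = (fun i => y (eI.symm i)) := by
      apply h.eq_of_agree (k₀ := eO k₀)
      intro o ho
      obtain ⟨i, hi⟩ := hk₀ (eO.symm o) (fun h' => ho (by rw [← h']; simp))
      have := congrFun hxy i
      simpa [hi] using this
    funext i
    have := congrFun hXY (eI i)
    simpa using this

/-- the odd symbols -/
def odd6 : Finset (Fin 6) := {1, 3, 5}

theorem cnt (s : Fin 6) : ((if s ∈ odd6 then 1 else 0 : ℕ) : ZMod 2) = pi2 (s : ZMod 6) := by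
  fin_cases s <;> rfl

/-- **Sharpness for order six.** -/
theorem sharp_six {m : ℕ} (hm : 8 ≤ m) (heven : Even m) :
    ∃ C : Fin (m + 1) → (Fin m → Fin 6) → Fin 6, IsVariationalSet m 6 (m + 1) C ∧
      ∃ (b : Fin m → Fin (m / 2)) (p : Fin (m / 2) → (Fin m → Fin 6) → ZMod 2),
        Surjective b ∧ (∀ j x y, (∀ i, b i = j → x i = y i) → p j x = p j y) ∧
        ∀ x, ((Finset.univ.filter fun a => C a x ∈ odd6).card : ZMod 2) = ∑ j, p j x := by
  obtain ⟨k, rfl⟩ := heven
  obtain ⟨r, rfl⟩ : ∃ r, k = r + 4 := ⟨k - 4, by omega⟩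
  obtain ⟨I, O, _, _, _, _, F, s, a, a', b, b', c, h, -, -, hI, hO, J, _, bl, p, hJ, hsp⟩ :=
    exists_split gadP_dec.isSpecial gadR_dec.isSpecial gadL_dec.isSpecial.gad r
  have eI : Fin (r + 4 + (r + 4)) ≃ I := (Fintype.equivFinOfCardEq (by rw [hI]; ring)).symm
  have eO : Fin (r + 4 + (r + 4) + 1) ≃ O := (Fintype.equivFinOfCardEq (by rw [hO]; ring)).symm
  have eJ : J ≃ Fin ((r + 4 + (r + 4)) / 2) := Fintype.equivFinOfCardEq (by rw [hJ]; omega)
  refine ⟨_, good_variational h eI eO, fun i => eJ (bl (eI i)),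
    fun j x => p (eJ.symm j) (fun i => x (eI.symm i)), ?_, ?_, ?_⟩
  · intro j
    obtain ⟨i, hi⟩ := hsp.surj (eJ.symm j)
    exact ⟨eI.symm i, by simp [hi]⟩
  · intro j x y hxy
    apply hsp.dep
    intro i hi
    exact hxy (eI.symm i) (by simp [hi])
  · intro x
    rw [card_filter, Nat.cast_sum]
    refine (sum_congr rfl (fun k _ => cnt _)).trans ?_
    rw [eO.sum_comp (fun o => pi2 (F (fun i => x (eI.symm i)) o))]
    exact (hsp.dec (fun i => x (eI.symm i))).trans
      (eJ.symm.sum_comp (fun j => p j (fun i => x (eI.symm i)))).symm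

end Pool.Agent.Run7.h791.VC
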