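import Pool.Agent.H430R2.PermCubes.Defs

set_option autoImplicit false

/-!
# A parity obstruction for variational sets of `m + 1` cubes, `m` even and `n ≡ 2 mod 4`
-/

namespace Pool.Agent.Run7.h791.VC

open Finset Function Pool.Agent.H430R2.PermCubes

/-- the sign of the symbol `s` -/
def ep {n : ℕ} (H : Finset (Fin n)) (s : Fin n) : ℤ := if s ∈ H then -1 else 1

theorem ep_cases {n : ℕ} (H : Finset (Fin n)) (s : Fin n) : ep H s = 1 ∨ ep H s = -1 := by
  unfold ep
  split_ifs <;> simp

theorem sum_ep {n : ℕ} {H : Finset (Fin n)} (hH : 2 * H.card = n) : ∑ s, ep H s = 0 := by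
  unfold ep
  rw [Finset.sum_ite]
  simp only [sum_const, nsmul_eq_mul, mul_neg, mul_one]
  have h1 : (univ.filter fun s => s ∈ H) = H := by ext; simp
  have h2 : (univ.filter fun s => s ∉ H).card = n - H.card := by
    have : (univ.filter fun s => s ∉ H) = Hᶜ := by ext; simp
    rw [this, card_compl, Fintype.card_fin]
  rw [h1, h2, Nat.cast_sub (by omega)]
  have : (n : ℤ) = 2 * H.card := by exact_mod_cast hH.symm
  rw [this]
  ring

theorem prod_ep {n : ℕ} (H : Finset (Fin n)) : ∏ s, ep H s = (-1) ^ H.card := by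
  unfold ep
  rw [Finset.prod_ite]
  simp only [prod_const, one_pow, mul_one]
  congr 2
  ext
  simp

/-- signs with product `-1` on a set of `2 mod 4` elements have a sum divisible by four -/
theorem four_dvd {n : ℕ} (hn : n % 4 = 2) (s : Fin n → ℤ) (hs : ∀ t, s t = 1 ∨ s t = -1)
    (hp : ∏ t, s t = -1) : (4 : ℤ) ∣ ∑ t, s t := by
  classical
  set A := univ.filter fun t => s t = -1 with hA
  have h1 : ∀ t, s t = if t ∈ A then -1 else 1 := by
    intro t
    by_cases h : t ∈ A
    · rw [if_pos h]
      exact (mem_filter.1 h).2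
    · rw [if_neg h]
      rcases hs t with h' | h'
      · exact h'
      · exact absurd (by rw [hA]; exact mem_filter.2 ⟨mem_univ _, h'⟩) h
  have h2 : s = ep A := by
    funext t
    rw [h1 t, ep]
  rw [h2, prod_ep] at hp
  have hodd : Odd A.card := by
    rcases Nat.even_or_odd A.card with h | h
    · rw [h.neg_one_pow] at hp
      norm_num at hp
    · exact h
  have hsum : ∑ t, s t = (n : ℤ) - 2 * A.card := by
    rw [h2]
    unfold ep
    rw [Finset.sum_ite]
    simp only [sum_const, nsmul_eq_mul, mul_neg, mul_one]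
    have h3 : (univ.filter fun s => s ∈ A) = A := by ext; simp
    have h4 : (univ.filter fun s => s ∉ A).card = n - A.card := by
      have : (univ.filter fun s => s ∉ A) = Aᶜ := by ext; simp
      rw [this, card_compl, Fintype.card_fin]
    have h5 : A.card ≤ n := by
      have := card_le_univ A
      rwa [Fintype.card_fin] at this
    rw [h3, h4, Nat.cast_sub h5]
    ring
  rw [hsum]
  obtain ⟨a, ha⟩ := hodd
  rw [ha]
  push_cast
  omega

section

variable {m n : ℕ} {C : Fin (m + 1) → (Fin m → Fin n) → Fin n} {H : Fin (m + 1) → Finset (Fin n)}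

/-- the product of the signs of some but not all of the cubes has sum zero -/
theorem sum_part (hC : IsVariationalSet m n (m + 1) C) (hH : ∀ k, 2 * (H k).card = n)
    (T : Finset (Fin (m + 1))) (hT : T.Nonempty) (hT' : T ≠ univ) :
    ∑ x, ∏ k ∈ T, ep (H k) (C k x) = 0 := by
  classical
  obtain ⟨k₀, hk₀⟩ : ∃ k₀, k₀ ∉ T := by
    by_contra hcon
    push Not at hcon
    exact hT' (eq_univ_iff_forall.2 hcon)
  have hb := hC.2 k₀.succAbove Fin.succAbove_right_injective
  let G : Fin m → Fin n → ℤ := fun i s =>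
    if k₀.succAbove i ∈ T then ep (H (k₀.succAbove i)) s else 1
  have h1 : ∀ x : Fin m → Fin n, ∏ k ∈ T, ep (H k) (C k x) =
      ∏ i, G i (C (k₀.succAbove i) x) := by
    intro x
    have h2 : ∏ k ∈ T, ep (H k) (C k x) =
        ∏ k, (if k ∈ T then ep (H k) (C k x) else 1) := by
      rw [prod_ite_mem, univ_inter]
    rw [h2, Fin.prod_univ_succAbove _ k₀, if_neg hk₀, one_mul]
  have h2 : ∑ x : Fin m → Fin n, ∏ i, G i (C (k₀.succAbove i) x) =
      ∑ y : Fin m → Fin n, ∏ i, G i (y i) :=
    hb.sum_comp (fun y : Fin m → Fin n => ∏ i, G i (y i))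
  have h3 : ∑ y : Fin m → Fin n, ∏ i, G i (y i) = ∏ i, ∑ s, G i s := by
    rw [prod_univ_sum, Fintype.piFinset_univ]
  rw [sum_congr rfl (fun x _ => h1 x), h2, h3]
  obtain ⟨k, hk⟩ := hT
  have hkk : k ≠ k₀ := fun h => hk₀ (h ▸ hk)
  obtain ⟨i, hi⟩ := Fin.exists_succAbove_eq hkk
  apply prod_eq_zero (mem_univ i)
  have hi' : k₀.succAbove i ∈ T := by rwa [hi]
  simp only [G, hi', if_true]
  exact sum_ep (hH _)

/-- the signed count -/
theorem signed (hC : IsVariationalSet m n (m + 1) C) (hH : ∀ k, 2 * (H k).card = n) :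
    ∃ N : ℤ, ∑ x, ∏ k, ep (H k) (C k x) = 2 ^ (m + 1) * N - (n : ℤ) ^ m := by
  classical
  have h1 : ∀ x : Fin m → Fin n, ∏ k, (1 + ep (H k) (C k x)) =
      2 ^ (m + 1) * (if ∀ k, C k x ∉ H k then 1 else 0) := by
    intro x
    by_cases h : ∀ k, C k x ∉ H k
    · rw [if_pos h, mul_one]
      have : ∀ k ∈ (univ : Finset (Fin (m + 1))), (1 + ep (H k) (C k x)) = 2 := by
        intro k _
        simp [ep, h k]
      rw [prod_congr rfl this, prod_const, card_univ, Fintype.card_fin]
    · rw [if_neg h, mul_zero]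
      push Not at h
      obtain ⟨k, hk⟩ := h
      apply prod_eq_zero (mem_univ k)
      simp [ep, hk]
  have h2 : ∑ x, ∏ k, (1 + ep (H k) (C k x)) =
      ∑ T ∈ (univ : Finset (Fin (m + 1))).powerset, ∑ x, ∏ k ∈ T, ep (H k) (C k x) := by
    rw [sum_comm]
    apply sum_congr rfl
    intro x _
    rw [prod_one_add]
  have h3 : ∑ T ∈ (univ : Finset (Fin (m + 1))).powerset, ∑ x, ∏ k ∈ T, ep (H k) (C k x) =
      (n : ℤ) ^ m + ∑ x, ∏ k, ep (H k) (C k x) := by
    rw [← sum_subset (s₁ := {∅, univ})]
    · rw [sum_pair]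
      · simp
      · exact (univ_nonempty.ne_empty).symm
    · intro T _
      simp
    · intro T _ hT
      simp only [mem_insert, mem_singleton, not_or] at hT
      exact sum_part hC hH T (nonempty_iff_ne_empty.2 hT.1) hT.2
  refine ⟨∑ x, (if ∀ k, C k x ∉ H k then 1 else 0), ?_⟩
  rw [mul_sum, ← sum_congr rfl (fun x _ => h1 x), h2, h3]
  ring

/-- the signed count is an odd multiple of `2 ^ m` -/
theorem signed_odd (hn : n % 4 = 2) (hC : IsVariationalSet m n (m + 1) C)
    (hH : ∀ k, 2 * (H k).card = n) : ¬ (2 : ℤ) ^ (m + 1) ∣ ∑ x, ∏ k, ep (H k) (C k x) := by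
  obtain ⟨N, hN⟩ := signed hC hH
  rw [hN]
  intro h
  have h1 : (2 : ℤ) ^ (m + 1) ∣ (n : ℤ) ^ m := by
    have := dvd_sub (Dvd.intro N rfl : (2 : ℤ) ^ (m + 1) ∣ 2 ^ (m + 1) * N) h
    simpa using this
  obtain ⟨u, hu⟩ : ∃ u : ℕ, n = 2 * (2 * u + 1) := ⟨n / 4, by omega⟩
  have h2 : (2 : ℤ) ^ (m + 1) ∣ 2 ^ m * ((2 * u + 1 : ℤ)) ^ m := by
    rw [hu] at h1
    push_cast at h1
    rwa [mul_pow] at h1
  rw [pow_succ] at h2
  have h3 : (2 : ℤ) ∣ ((2 * u + 1 : ℤ)) ^ m :=
    (mul_dvd_mul_iff_left (pow_ne_zero m (by norm_num))).1 h2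
  have h4 : Odd (((2 * u + 1 : ℤ)) ^ m) := Odd.pow ⟨u, rfl⟩
  exact (Int.not_even_iff_odd.2 h4) (even_iff_two_dvd.2 h3)

/-- the product of the signs on a line -/
theorem line_prod (hm : Even m) (hn : n % 4 = 2) (hC : IsVariationalSet m n (m + 1) C)
    (hH : ∀ k, 2 * (H k).card = n) (x : Fin m → Fin n) (i : Fin m) :
    ∏ t, ∏ k, ep (H k) (C k (update x i t)) = -1 := by
  rw [prod_comm]
  have h1 : ∀ k, ∏ t, ep (H k) (C k (update x i t)) = -1 := by
    intro k
    rw [(hC.1 k i x).prod_comp (fun s => ep (H k) s), prod_ep]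
    have : Odd (H k).card := by
      have := hH k
      rw [Nat.odd_iff]
      omega
    exact this.neg_one_pow
  rw [prod_congr rfl (fun k _ => h1 k), prod_const, card_univ, Fintype.card_fin]
  exact hm.add_one.neg_one_pow

/-- **The obstruction**, with signs. -/
theorem blocks {r : ℕ} (hm : Even m) (hn : n % 4 = 2) (hC : IsVariationalSet m n (m + 1) C)
    (hH : ∀ k, 2 * (H k).card = n) (b : Fin m → Fin r) (hb : Surjective b)
    (q : Fin r → (Fin m → Fin n) → ℤ) (hq : ∀ j x, q j x = 1 ∨ q j x = -1)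
    (hdep : ∀ j x y, (∀ i, b i = j → x i = y i) → q j x = q j y)
    (hdec : ∀ x, ∏ k, ep (H k) (C k x) = ∏ j, q j x) : 2 * r ≤ m := by
  classical
  have hn0 : 0 < n := by omega
  let x₀ : Fin m → Fin n := fun _ => ⟨0, hn0⟩
  -- the functions of the blocks
  let ex : ∀ j, ({i // b i = j} → Fin n) → Fin m → Fin n := fun j z i =>
    if h : b i = j then z ⟨i, h⟩ else x₀ i
  let E : (Fin m → Fin n) ≃ (∀ j : Fin r, {i // b i = j} → Fin n) :=
    { toFun := fun x j i => x i.1
      invFun := fun y i => y (b i) ⟨i, rfl⟩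
      left_inv := fun x => rfl
      right_inv := fun y => by
        funext j ⟨i, hi⟩
        subst hi
        rfl }
  have hqe : ∀ j (x : Fin m → Fin n), q j x = q j (ex j (E x j)) := by
    intro j x
    apply hdep
    intro i hi
    simp only [ex, E, hi, dif_pos, Equiv.coe_fn_mk]
  have hfac : ∑ x, ∏ k, ep (H k) (C k x) = ∏ j, ∑ z, q j (ex j z) := by
    rw [prod_univ_sum, Fintype.piFinset_univ, ← E.sum_comp]
    apply sum_congr rfl
    intro x _
    rw [hdec x]
    exact prod_congr rfl fun j _ => hqe j x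
  -- each factor is divisible by four
  have hfour : ∀ j, (4 : ℤ) ∣ ∑ z, q j (ex j z) := by
    intro j
    obtain ⟨i, hi⟩ := hb j
    let i' : {i // b i = j} := ⟨i, hi⟩
    rw [← (Equiv.funSplitAt i' (Fin n)).symm.sum_comp, Fintype.sum_prod_type_right]
    apply dvd_sum
    intro w _
    -- a line in the direction `i`
    obtain ⟨z₀, hz₀⟩ : ∃ z₀ : {i // b i = j} → Fin n, ∀ t,
        (Equiv.funSplitAt i' (Fin n)).symm (t, w) = update z₀ i' t := by
      refine ⟨(Equiv.funSplitAt i' (Fin n)).symm (⟨0, hn0⟩, w), fun t => ?_⟩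
      funext a
      by_cases ha : a = i'
      · subst ha
        simp [Equiv.funSplitAt, Equiv.piSplitAt]
      · rw [update_of_ne ha]
        simp [Equiv.funSplitAt, Equiv.piSplitAt, ha]
    have hex : ∀ t, q j (ex j ((Equiv.funSplitAt i' (Fin n)).symm (t, w))) =
        q j (update (ex j z₀) i t) := by
      intro t
      apply hdep
      intro a ha
      rw [hz₀]
      by_cases hai : a = i
      · subst hai
        simp [ex, ha, i']
      · rw [update_of_ne hai]
        simp only [ex, ha, dif_pos]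
        rw [update_of_ne]
        intro h
        exact hai (congrArg Subtype.val h)
    rw [sum_congr rfl (fun t _ => hex t)]
    set x := ex j z₀ with hx
    set c : ℤ := ∏ j' ∈ univ.erase j, q j' x with hc
    have hc1 : c = 1 ∨ c = -1 := by
      rw [hc]
      apply prod_induction _ (fun a : ℤ => a = 1 ∨ a = -1)
      · rintro a b (rfl | rfl) (rfl | rfl) <;> simp
      · left; rfl
      · intro j' _
        exact hq j' x
    have hline : ∀ t, ∏ k, ep (H k) (C k (update x i t)) = q j (update x i t) * c := by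
      intro t
      rw [hdec, ← mul_prod_erase univ _ (mem_univ j), hc]
      congr 1
      apply prod_congr rfl
      intro j' hj'
      apply hdep
      intro a ha
      rw [update_of_ne]
      rintro rfl
      exact (mem_erase.1 hj').1 (ha.symm.trans hi)
    have hlp := line_prod hm hn hC hH x i
    rw [prod_congr rfl (fun t _ => hline t), prod_mul_distrib, prod_const, card_univ,
      Fintype.card_fin] at hlp
    have hcn : c ^ n = 1 := by
      have hne : Even n := by
        rw [Nat.even_iff]
        omega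
      rcases hc1 with h | h
      · rw [h, one_pow]
      · rw [h, hne.neg_one_pow]
    rw [hcn, mul_one] at hlp
    exact four_dvd hn _ (fun t => hq j _) hlp
  by_contra hcon
  push Not at hcon
  apply signed_odd hn hC hH
  have h1 : (4 : ℤ) ^ r ∣ ∏ j, ∑ z, q j (ex j z) := by
    have := prod_dvd_prod_of_dvd (s := (univ : Finset (Fin r))) (fun _ => (4 : ℤ))
      (fun j => ∑ z, q j (ex j z)) (fun j _ => hfour j)
    simpa using this
  rw [hfac]
  refine dvd_trans ?_ h1
  have h4 : (4 : ℤ) ^ r = 2 ^ (2 * r) := by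
    rw [pow_mul]
    norm_num
  rw [h4]
  exact pow_dvd_pow 2 (by omega)

end

/-! ## Groups of order `2 mod 4` -/

/-- the sign character of a finite group -/
theorem exists_sign {n : ℕ} (hn : n % 4 = 2) (G : Type) [Group G] (e : Fin n ≃ G) :
    ∃ χ : G →* ℤˣ, 2 * (univ.filter fun s : Fin n => χ (e s) = -1).card = n := by
  classical
  have : Fintype G := Fintype.ofEquiv _ e
  have hcard : Fintype.card G = n := by
    rw [← Fintype.card_congr e, Fintype.card_fin]
  have : Fact (Nat.Prime 2) := ⟨Nat.prime_two⟩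
  obtain ⟨t, ht⟩ := exists_prime_orderOf_dvd_card (G := G) 2 (by rw [hcard]; omega)
  let χ : G →* ℤˣ := Equiv.Perm.sign.comp (MulAction.toPermHom G G)
  have ht1 : t ≠ 1 := by
    rintro rfl
    rw [orderOf_one] at ht
    omega
  have ht2 : t ^ 2 = 1 := by
    rw [← ht]
    exact pow_orderOf_eq_one t
  have hχ : χ t = -1 := by
    have h1 : (MulAction.toPermHom G G t) ^ 2 = 1 := by
      rw [← map_pow, ht2, map_one]
    have h2 : Fintype.card (fixedPoints (MulAction.toPermHom G G t)) = 0 := by
      rw [Fintype.card_eq_zero_iff]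
      refine ⟨fun g => ht1 ?_⟩
      have h' : t * g.1 = g.1 := g.2
      exact mul_eq_right.1 h'
    have h3 := Equiv.Perm.sign_of_pow_two_eq_one h1
    rw [h2, hcard, Nat.sub_zero] at h3
    have h4 : Odd (n / 2) := by
      rw [Nat.odd_iff]
      omega
    rw [h4.neg_one_pow] at h3
    exact h3
  refine ⟨χ, ?_⟩
  -- the multiplication by `t` exchanges the two halves
  have h5 : (univ.filter fun s : Fin n => χ (e s) = -1).card =
      (univ.filter fun s : Fin n => ¬ χ (e s) = -1).card := by
    apply card_bij (fun s _ => e.symm (t * e s))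
    · intro s hs
      simp only [mem_filter, mem_univ, true_and] at hs ⊢
      rw [Equiv.apply_symm_apply, map_mul, hχ, hs]
      decide
    · intro s _ s' _ h
      have := e.symm.injective h
      exact e.injective (mul_left_cancel this)
    · intro s hs
      simp only [mem_filter, mem_univ, true_and] at hs
      refine ⟨e.symm (t⁻¹ * e s), ?_, ?_⟩
      · simp only [mem_filter, mem_univ, true_and, Equiv.apply_symm_apply, map_mul, map_inv, hχ]
        rcases Int.units_eq_one_or (χ (e s)) with h | h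
        · rw [h]; decide
        · exact absurd h hs
      · simp
  have h6 := card_filter_add_card_filter_not (s := (univ : Finset (Fin n)))
    (fun s : Fin n => χ (e s) = -1)
  rw [card_univ, Fintype.card_fin] at h6
  omega

/-! ## Parts of the set with an even number of cubes -/

/-- signs: the sum and the product -/
theorem signs {n : ℕ} (s : Fin n → ℤ) (hs : ∀ t, s t = 1 ∨ s t = -1) :
    ∃ A : ℕ, ∑ t, s t = (n : ℤ) - 2 * A ∧ ∏ t, s t = (-1) ^ A := by
  classical
  set A := univ.filter fun t => s t = -1 with hA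
  have h2 : s = ep A := by
    funext t
    unfold ep
    by_cases h : t ∈ A
    · rw [if_pos h]
      exact (mem_filter.1 h).2
    · rw [if_neg h]
      rcases hs t with h' | h'
      · exact h'
      · exact absurd (by rw [hA]; exact mem_filter.2 ⟨mem_univ _, h'⟩) h
  refine ⟨A.card, ?_, ?_⟩
  · rw [h2]
    unfold ep
    rw [Finset.sum_ite]
    simp only [sum_const, nsmul_eq_mul, mul_neg, mul_one]
    have h3 : (univ.filter fun s => s ∈ A) = A := by ext; simp
    have h4 : (univ.filter fun s => s ∉ A).card = n - A.card := by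
      have : (univ.filter fun s => s ∉ A) = Aᶜ := by ext; simp
      rw [this, card_compl, Fintype.card_fin]
    have h5 : A.card ≤ n := by
      have := card_le_univ A
      rwa [Fintype.card_fin] at this
    rw [h3, h4, Nat.cast_sub h5]
    ring
  · rw [h2, prod_ep]

/-- the signs of at most `m` of the cubes have sum zero -/
theorem sum_few {m n k : ℕ} {C : Fin k → (Fin m → Fin n) → Fin n} {H : Fin k → Finset (Fin n)}
    (hC : IsVariationalSet m n k C) (hH : ∀ a, 2 * (H a).card = n) (hmk : m ≤ k)
    (T : Finset (Fin k)) (hT : T.Nonempty) (hTm : T.card ≤ m) :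
    ∑ x, ∏ a ∈ T, ep (H a) (C a x) = 0 := by
  classical
  obtain ⟨U, hTU, hU⟩ := exists_superset_card_eq hTm (by rw [Fintype.card_fin]; exact hmk)
  let e : Fin m ≃ U := (U.equivFinOfCardEq hU).symm
  have hb := hC.2 (fun i => (e i).1) (fun i j hij => e.injective (Subtype.ext hij))
  let G : Fin m → Fin n → ℤ := fun i s => if (e i).1 ∈ T then ep (H (e i).1) s else 1
  have h1 : ∀ x : Fin m → Fin n, ∏ a ∈ T, ep (H a) (C a x) = ∏ i, G i (C (e i).1 x) := by
    intro x
    have h2 : ∏ a ∈ T, ep (H a) (C a x) = ∏ a ∈ U, (if a ∈ T then ep (H a) (C a x) else 1) := by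
      rw [prod_ite_mem, inter_eq_right.2 hTU]
    rw [h2, ← prod_coe_sort]
    exact (e.prod_comp (fun a : U => if a.1 ∈ T then ep (H a.1) (C a.1 x) else 1)).symm
  have h2 : ∑ x : Fin m → Fin n, ∏ i, G i (C (e i).1 x) =
      ∑ y : Fin m → Fin n, ∏ i, G i (y i) :=
    hb.sum_comp (fun y : Fin m → Fin n => ∏ i, G i (y i))
  have h3 : ∑ y : Fin m → Fin n, ∏ i, G i (y i) = ∏ i, ∑ s, G i s := by
    rw [prod_univ_sum, Fintype.piFinset_univ]
  rw [sum_congr rfl (fun x _ => h1 x), h2, h3]
  obtain ⟨a, ha⟩ := hT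
  apply prod_eq_zero (mem_univ (e.symm ⟨a, hTU ha⟩))
  simp only [G, Equiv.apply_symm_apply, ha, if_true]
  exact sum_ep (hH _)

/-- **The parity of an even number of at most `m` cubes does not split** into functions of one
variable. -/
theorem even_part {m n k : ℕ} {C : Fin k → (Fin m → Fin n) → Fin n}
    {H : Fin k → Finset (Fin n)} (hn : n % 4 = 2)
    (hC : IsVariationalSet m n k C) (hH : ∀ a, 2 * (H a).card = n) (hmk : m ≤ k)
    (T : Finset (Fin k)) (hT : T.Nonempty) (hTm : T.card ≤ m) (heven : Even T.card)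
    (q : Fin m → Fin n → ℤ) (hq : ∀ i s, q i s = 1 ∨ q i s = -1)
    (hdec : ∀ x, ∏ a ∈ T, ep (H a) (C a x) = ∏ i, q i (x i)) : False := by
  classical
  have hn0 : 0 < n := by omega
  have h0 := sum_few hC hH hmk T hT hTm
  rw [sum_congr rfl (fun x _ => hdec x)] at h0
  have h1 : ∑ x : Fin m → Fin n, ∏ i, q i (x i) = ∏ i, ∑ s, q i s := by
    rw [prod_univ_sum, Fintype.piFinset_univ]
  rw [h1, prod_eq_zero_iff] at h0
  obtain ⟨i, -, hi⟩ := h0
  -- the product on a line in the direction `i`
  let x : Fin m → Fin n := fun _ => ⟨0, hn0⟩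
  have hl : ∏ t, ∏ a ∈ T, ep (H a) (C a (update x i t)) = 1 := by
    rw [prod_comm]
    have h2 : ∀ a, ∏ t, ep (H a) (C a (update x i t)) = -1 := by
      intro a
      rw [(hC.1 a i x).prod_comp (fun s => ep (H a) s), prod_ep]
      have : Odd (H a).card := by
        have := hH a
        rw [Nat.odd_iff]
        omega
      exact this.neg_one_pow
    rw [prod_congr rfl (fun a _ => h2 a), prod_const]
    exact heven.neg_one_pow
  set c : ℤ := ∏ j ∈ univ.erase i, q j (x j) with hc
  have hc1 : c = 1 ∨ c = -1 := by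
    rw [hc]
    apply prod_induction _ (fun a : ℤ => a = 1 ∨ a = -1)
    · rintro a b (rfl | rfl) (rfl | rfl) <;> simp
    · left; rfl
    · intro j' _
      exact hq j' _
  have hline : ∀ t, ∏ a ∈ T, ep (H a) (C a (update x i t)) = q i t * c := by
    intro t
    rw [hdec, ← mul_prod_erase univ _ (mem_univ i), update_self, hc]
    congr 1
    apply prod_congr rfl
    intro j hj
    rw [update_of_ne (mem_erase.1 hj).1]
  rw [prod_congr rfl (fun t _ => hline t), prod_mul_distrib, prod_const, card_univ,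
    Fintype.card_fin] at hl
  have hcn : c ^ n = 1 := by
    have hne : Even n := by
      rw [Nat.even_iff]
      omega
    rcases hc1 with h | h
    · rw [h, one_pow]
    · rw [h, hne.neg_one_pow]
  rw [hcn, mul_one] at hl
  obtain ⟨A, hA1, hA2⟩ := signs (q i) (hq i)
  rw [hA2] at hl
  have hAe : Even A := by
    rcases Nat.even_or_odd A with h | h
    · exact h
    · rw [h.neg_one_pow] at hl
      norm_num at hl
  rw [hi] at hA1
  obtain ⟨B, hB⟩ := hAe
  omega

/-! ## Signs and elements of `ZMod 2` -/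

/-- the sign of an element of `ZMod 2` -/
def sg (z : ZMod 2) : ℤ := if z = 0 then 1 else -1

theorem sg_cases (z : ZMod 2) : sg z = 1 ∨ sg z = -1 := by
  unfold sg
  split_ifs <;> simp

theorem sg_add (a b : ZMod 2) : sg (a + b) = sg a * sg b := by
  revert a b
  decide

theorem sg_sum {ι : Type} (s : Finset ι) (f : ι → ZMod 2) : sg (∑ i ∈ s, f i) = ∏ i ∈ s, sg (f i) := by
  classical
  induction s using Finset.induction_on with
  | empty => simp [sg]
  | insert a s ha ih => rw [sum_insert ha, prod_insert ha, sg_add, ih]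

theorem sg_card {n k : ℕ} {X : Type} (C : Fin k → X → Fin n) (H : Fin k → Finset (Fin n))
    (T : Finset (Fin k)) (x : X) :
    sg ((T.filter fun a => C a x ∈ H a).card : ZMod 2) = ∏ a ∈ T, ep (H a) (C a x) := by
  rw [card_filter, Nat.cast_sum, sg_sum]
  apply prod_congr rfl
  intro a _
  unfold ep
  split_ifs <;> simp [sg]

/-! ## Cubes over groups -/

/-- `C` is the table of an iterated product in a group of order `n`, up to the names of the
symbols: `e (C x)` is the product of the elements `f i (x i)` in some order `σ` of the variables. -/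
def GroupCube (m n : ℕ) (C : (Fin m → Fin n) → Fin n) : Prop :=
  ∃ (G : Type) (_ : Group G) (e : Fin n ≃ G) (σ : Equiv.Perm (Fin m)) (f : Fin m → Fin n → G),
    ∀ x, e (C x) = (List.ofFn fun i => f (σ i) (x (σ i))).prod

theorem GroupCube.split {m n : ℕ} (hn : n % 4 = 2) {C : (Fin m → Fin n) → Fin n}
    (h : GroupCube m n C) : ∃ (H : Finset (Fin n)) (q : Fin m → Fin n → ℤ), 2 * H.card = n ∧
      (∀ i s, q i s = 1 ∨ q i s = -1) ∧ ∀ x, ep H (C x) = ∏ i, q i (x i) := by
  classical
  obtain ⟨G, _, e, σ, f, hf⟩ := h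
  obtain ⟨χ, hχ⟩ := exists_sign hn G e
  refine ⟨univ.filter fun s : Fin n => χ (e s) = -1, fun i s => ((χ (f i s) : ℤˣ) : ℤ), hχ,
    fun i s => ?_, fun x => ?_⟩
  · rcases Int.units_eq_one_or (χ (f i s)) with h | h
    · left
      change ((χ (f i s) : ℤˣ) : ℤ) = 1
      rw [h]
      rfl
    · right
      change ((χ (f i s) : ℤˣ) : ℤ) = -1
      rw [h]
      rfl
  · have h1 : χ (e (C x)) = ∏ i, χ (f i (x i)) := by
      rw [hf, map_list_prod, List.map_ofFn, List.prod_ofFn]
      exact Equiv.prod_comp σ (fun i => χ (f i (x i)))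
    rw [← Units.coe_prod, ← h1]
    unfold ep
    rcases Int.units_eq_one_or (χ (e (C x))) with h | h
    · rw [if_neg, h]
      · rfl
      · simp only [mem_filter, mem_univ, true_and, h]
        decide
    · rw [if_pos, h]
      · rfl
      · simp only [mem_filter, mem_univ, true_and, h]

/-- **At most one of the cubes is a group cube.** -/
theorem one_group {m n k : ℕ} (hm : 2 ≤ m) (hn : n % 4 = 2) (hmk : m ≤ k)
    (C : Fin k → (Fin m → Fin n) → Fin n) (hC : IsVariationalSet m n k C) (a a' : Fin k)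
    (h : GroupCube m n (C a)) (h' : GroupCube m n (C a')) : a = a' := by
  classical
  by_contra hne
  obtain ⟨H, q, hH, hq, hdec⟩ := h.split hn
  obtain ⟨H', q', hH', hq', hdec'⟩ := h'.split hn
  refine even_part (H := fun b => if b = a then H else H') hn hC (fun b => ?_) hmk {a, a'}
    ⟨a, by simp⟩ (by rw [card_pair hne]; exact hm) (by rw [card_pair hne]; decide)
    (fun i s => q i s * q' i s) (fun i s => ?_) (fun x => ?_)
  · split_ifs
    · exact hH
    · exact hH'
  · rcases hq i s with h1 | h1 <;> rcases hq' i s with h2 | h2 <;> simp [h1, h2]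
  · rw [prod_pair hne, prod_mul_distrib]
    simp only [if_true, if_neg (Ne.symm hne), hdec, hdec']

end Pool.Agent.Run7.h791.VC
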